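import Mathlib

/-!
# Adding binary slaloms without adding dominating reals

MP_b6db87_lc asks for a model of (R) in which (M) fails, that is, in which for every `a` and every partitioning
real `d` all reals of `L[a]` go through one `d`-binary slalom, while for some `a` the functions of `L[a]` are not
dominated by a real. Here the one step of such a construction: for every partitioning real `d` a forcing notion with
the countable chain condition which forces that all reals of the ground model go through one `d`-binary slalom, and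
which is good for unbounded families: for every name `τ` of an element of `ω^ω` there are countably many functions
`h k` of the ground model such that every `f` which is dominated by no `h k` is forced not to be dominated by `τ`.
The iteration of these forcing notions is not treated here.
-/

set_option autoImplicit false

namespace Pool.Agent.Results.MP_b6db87_lc.SlalomStep

open Filter Topology

/-! ### Slaloms -/

/-- `d` is a partitioning real: strictly increasing with `d 0 = 0`. -/
def Partitioning (d : ℕ → ℕ) : Prop := StrictMono d ∧ d 0 = 0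

/-- The set `{0,1}^I` for the `m`-th interval `I = [d m, d (m + 1))`. -/
abbrev Block (d : ℕ → ℕ) (m : ℕ) : Type := ↥(Set.Ico (d m) (d (m + 1))) → Bool

/-- The restriction of `x` to the `m`-th interval. -/
def blk (d : ℕ → ℕ) (x : ℕ → Bool) (m : ℕ) : Block d m := fun i => x i

/-! ### Forcing notions -/

section Forcing

variable {P : Type} [Preorder P]

/-- `p` and `q` are compatible. -/
def Compat (p q : P) : Prop := ∃ r, r ≤ p ∧ r ≤ q

/-- The countable chain condition. -/
def CCC (P : Type) [Preorder P] : Prop :=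
  ∀ A : Set P, (∀ p ∈ A, ∀ q ∈ A, p ≠ q → ¬ Compat p q) → A.Countable

end Forcing

/-- A `P`-name `τ` for a sequence with `τ(n) ∈ α n`, given by the relation `dec p n v`: the condition `p` forces
`τ(n) = v`. Densely many conditions force a value. -/
structure Name (P : Type) [Preorder P] (α : ℕ → Type) where
  dec : P → ∀ n, α n → Prop
  mono : ∀ p q n v, q ≤ p → dec p n v → dec q n v
  func : ∀ p n v w, dec p n v → dec p n w → v = w
  dense : ∀ n p, ∃ q ≤ p, ∃ v, dec q n v

/-- A `P`-name for an element of `ω^ω`. -/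
abbrev NameReal (P : Type) [Preorder P] : Type := Name P fun _ => ℕ

/-- `f` is forced not to be eventually dominated by `τ`: for all `N`, it is forced that `τ(n) < f(n)` for some
`n ≥ N`. -/
def NotDominated {P : Type} [Preorder P] (τ : NameReal P) (f : ℕ → ℕ) : Prop :=
  ∀ (p : P) (N : ℕ), ∃ n ≥ N, ∃ q ≤ p, ∃ v, τ.dec q n v ∧ v < f n

/-- `P` is good for unbounded families: for every `P`-name `τ` there are countably many functions `h k` such that
every `f` which is not eventually dominated by any `h k` is forced not to be eventually dominated by `τ`. In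
particular no name dominates all functions of an unbounded family, so `P` adds no dominating real. -/
def Good (P : Type) [Preorder P] : Prop :=
  ∀ τ : NameReal P, ∃ h : ℕ → ℕ → ℕ, ∀ f : ℕ → ℕ, (∀ k, ¬ ∀ᶠ n in atTop, f n ≤ h k n) → NotDominated τ f

/-! ### Fréchet-linked sets of conditions -/

/-- A set `Q` of conditions is Fréchet-linked: for every sequence in `Q` there is a condition forcing that
infinitely many members of the sequence are in the generic filter. -/
def FrLinked {P : Type} [Preorder P] (Q : Set P) : Prop :=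
  ∀ p : ℕ → P, (∀ i, p i ∈ Q) → ∃ q, ∀ r ≤ q, ∃ᶠ i in atTop, Compat r (p i)

theorem FrLinked.bound {P : Type} [Preorder P] {Q : Set P} (hQ : FrLinked Q) (τ : NameReal P) (n : ℕ) :
    ∃ v, ∀ p ∈ Q, ∃ q ≤ p, ∃ w, τ.dec q n w ∧ w ≤ v := by
  by_contra hcon
  push Not at hcon
  choose p hp hv using hcon
  obtain ⟨q, hq⟩ := hQ p hp
  obtain ⟨r, hr, w, hw⟩ := τ.dense n q
  obtain ⟨i, ⟨e, he1, he2⟩, hi⟩ := ((hq r hr).and_eventually (eventually_ge_atTop w)).exists
  exact absurd (hv i e he2 w (τ.mono r e n w he1 hw)) (by omega)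

theorem good_of_frLinked {P T : Type} [Preorder P] [Countable T] [Nonempty T] (idx : P → T)
    (h : ∀ t, FrLinked {p | idx p = t}) : Good P := by
  intro τ
  choose g hg using fun t n => (h t).bound τ n
  obtain ⟨e, he⟩ := exists_surjective_nat T
  refine ⟨fun k => g (e k), fun f hf p N => ?_⟩
  obtain ⟨k, hk⟩ := he (idx p)
  have h1 := hf k
  rw [not_eventually] at h1
  obtain ⟨n, hn, hnN⟩ := (h1.and_eventually (eventually_ge_atTop N)).exists
  have hn' : g (e k) n < f n := not_le.1 hn
  obtain ⟨q, hq, w, hw, hwv⟩ := hg (e k) n p hk.symm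
  exact ⟨n, hnN, q, hq, w, hw, by omega⟩

theorem ccc_of_frLinked {P T : Type} [Preorder P] [Countable T] (idx : P → T)
    (h : ∀ t, FrLinked {p | idx p = t}) : CCC P := by
  intro A hA
  have h1 : A = ⋃ t, {p | p ∈ A ∧ idx p = t} := by
    ext p
    simp
  rw [h1]
  refine Set.countable_iUnion fun t => Set.Finite.countable ?_
  by_contra hinf
  obtain ⟨f⟩ : Nonempty (ℕ ↪ {p | p ∈ A ∧ idx p = t}) :=
    ⟨Set.Infinite.natEmbedding _ hinf⟩
  obtain ⟨q, hq⟩ := h t (fun i => (f i : P)) (fun i => (f i).2.2)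
  obtain ⟨i, r, hr1, hr2⟩ := (hq q le_rfl).exists
  obtain ⟨j, ⟨e, he1, he2⟩, hj⟩ := ((hq r hr1).and_eventually (eventually_gt_atTop i)).exists
  refine hA (f i) (f i).2.1 (f j) (f j).2.1 ?_ ⟨e, he1.trans hr2, he2⟩
  intro hij
  have := f.injective (Subtype.ext hij)
  omega

/-! ### The forcing notion -/

/-- Conditions: a finite slalom `s` of length `len` and finitely many reals `F 0, …, F (c - 1)`, `c ≤ len`. -/
structure Cond (d : ℕ → ℕ) where
  len : ℕ
  s : ∀ m : Fin len, Set (Block d m)
  c : ℕ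
  F : Fin c → ℕ → Bool
  small : ∀ m, (s m).ncard ≤ m
  room : c ≤ len

/-- `q ≤ p`: the slalom of `q` extends the slalom of `p`, the reals of `p` are reals of `q`, and they go through the
new part of the slalom. -/
instance (d : ℕ → ℕ) : Preorder (Cond d) where
  le q p := p.len ≤ q.len ∧ (∀ m (h : m < p.len) (h' : m < q.len), q.s ⟨m, h'⟩ = p.s ⟨m, h⟩) ∧
    Set.range p.F ⊆ Set.range q.F ∧
    ∀ j, ∀ m (h' : m < q.len), p.len ≤ m → blk d (p.F j) m ∈ q.s ⟨m, h'⟩
  le_refl p := ⟨le_rfl, fun _ _ _ => rfl, subset_rfl, fun _ _ h' h => absurd h' (not_lt.2 h)⟩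
  le_trans r q p h1 h2 := by
    obtain ⟨a1, a2, a3, a4⟩ := h1
    obtain ⟨b1, b2, b3, b4⟩ := h2
    refine ⟨b1.trans a1, fun m h h' => ?_, b3.trans a3, fun j m h' h => ?_⟩
    · rw [a2 m (h.trans_le b1) h', b2 m h (h.trans_le b1)]
    · by_cases hm : m < q.len
      · rw [a2 m hm h']
        exact b4 j m hm h
      · obtain ⟨i, hi⟩ := b3 ⟨j, rfl⟩
        rw [← hi]
        exact a4 i m h' (not_lt.1 hm)

theorem le_def {d : ℕ → ℕ} {q p : Cond d} : q ≤ p ↔ p.len ≤ q.len ∧
    (∀ m (h : m < p.len) (h' : m < q.len), q.s ⟨m, h'⟩ = p.s ⟨m, h⟩) ∧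
    Set.range p.F ⊆ Set.range q.F ∧
    ∀ j, ∀ m (h' : m < q.len), p.len ≤ m → blk d (p.F j) m ∈ q.s ⟨m, h'⟩ := Iff.rfl

theorem ncard_range_le {k : ℕ} {α : Type} (f : Fin k → α) : (Set.range f).ncard ≤ k := by
  rw [← Set.image_univ]
  refine (Set.ncard_image_le (Set.toFinite _)).trans ?_
  simp [Set.ncard_univ]

/-- Extension of the slalom of `r` by `k` steps, and addition of `k` reals. -/
def ext {d : ℕ → ℕ} (r : Cond d) {k : ℕ} (F' : Fin k → ℕ → Bool) : Cond d where
  len := r.len + k
  s m := if h : (m : ℕ) < r.len then r.s ⟨m, h⟩ else Set.range fun j => blk d (r.F j) m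
  c := r.c + k
  F := Fin.append r.F F'
  small m := by
    split_ifs with h
    · exact r.small ⟨m, h⟩
    · refine le_trans ?_ (r.room.trans (not_lt.1 h))
      exact ncard_range_le _
  room := by have := r.room; omega

theorem ext_le {d : ℕ → ℕ} (r : Cond d) {k : ℕ} (F' : Fin k → ℕ → Bool) : ext r F' ≤ r := by
  refine ⟨Nat.le_add_right _ _, fun m h h' => dif_pos h, ?_, fun j m h' h => ?_⟩
  · rintro _ ⟨j, rfl⟩
    exact ⟨Fin.castAdd k j, Fin.append_left _ _ _⟩
  · have e : (ext r F').s ⟨m, h'⟩ = Set.range fun j => blk d (r.F j) m := dif_neg (not_lt.2 h)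
    rw [e]
    exact ⟨j, rfl⟩

theorem ext_le_of {d : ℕ → ℕ} (hd : StrictMono d) {N c : ℕ} {s : ∀ m : Fin N, Set (Block d m)}
    {small : ∀ m, (s m).ncard ≤ m} {room : c ≤ N} (F F' : Fin c → ℕ → Bool) (r : Cond d)
    (hr : r ≤ ⟨N, s, c, F', small, room⟩) (hF : ∀ j, ∀ i < d (r.len + c), F j i = F' j i) :
    ext r F ≤ ⟨N, s, c, F, small, room⟩ := by
  obtain ⟨h1, h2, h3, h4⟩ := hr
  dsimp only at h1 h2 h3 h4
  refine ⟨h1.trans (Nat.le_add_right _ _), fun m h h' => ?_, ?_, fun j m h' h => ?_⟩
  · exact (dif_pos (h.trans_le h1)).trans (h2 m h (h.trans_le h1))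
  · rintro _ ⟨j, rfl⟩
    exact ⟨Fin.natAdd r.c j, Fin.append_right _ _ _⟩
  · dsimp only at h ⊢
    have e : blk d (F j) m = blk d (F' j) m := by
      funext i
      exact hF j i (i.2.2.trans_le (hd.monotone (show m + 1 ≤ r.len + c from h')))
    rw [e]
    by_cases hm : m < r.len
    · have e1 : (ext r F).s ⟨m, h'⟩ = r.s ⟨m, hm⟩ := dif_pos hm
      rw [e1]
      exact h4 j m hm h
    · have e1 : (ext r F).s ⟨m, h'⟩ = Set.range fun j => blk d (r.F j) m := dif_neg hm
      rw [e1]
      obtain ⟨a, ha⟩ := h3 ⟨j, rfl⟩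
      exact ⟨a, by rw [← ha]⟩

/-- Length, slalom and number of reals of a condition: countably many possibilities. -/
def idx {d : ℕ → ℕ} (p : Cond d) : Σ N : ℕ, (∀ m : Fin N, Set (Block d m)) × ℕ := ⟨p.len, (p.s, p.c)⟩

theorem frLinked {d : ℕ → ℕ} (hd : StrictMono d) (t : Σ N : ℕ, (∀ m : Fin N, Set (Block d m)) × ℕ) :
    FrLinked {p : Cond d | idx p = t} := by
  obtain ⟨N, s, c⟩ := t
  intro p hp
  have h0 : ∀ i, ∃ (F : Fin c → ℕ → Bool) (h1 : ∀ m, (s m).ncard ≤ m) (h2 : c ≤ N),
      p i = ⟨N, s, c, F, h1, h2⟩ := by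
    intro i
    have h := hp i
    generalize p i = q at h ⊢
    obtain ⟨N', s', c', F, h1, h2⟩ := q
    cases h
    exact ⟨F, h1, h2, rfl⟩
  choose F h1 h2 hF using h0
  obtain ⟨F', hcl⟩ : ∃ F', MapClusterPt F' atTop F := exists_clusterPt_of_compactSpace (map F atTop)
  refine ⟨⟨N, s, c, F', h1 0, h2 0⟩, fun r hr => ?_⟩
  have hU : {G : Fin c → ℕ → Bool | ∀ j, ∀ i < d (r.len + c), G j i = F' j i} ∈ 𝓝 F' := by
    refine eventually_all.2 fun j => (eventually_all_finite (Set.finite_lt_nat _)).2 fun i _ => ?_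
    have hc : ContinuousAt (fun G : Fin c → ℕ → Bool => G j i) F' :=
      ((continuous_apply i).comp (continuous_apply j)).continuousAt
    exact hc.preimage_mem_nhds ((isOpen_discrete {F' j i}).mem_nhds rfl)
  refine (mapClusterPt_iff_frequently.1 hcl _ hU).mono fun i hi => ⟨ext r (F i), ext_le _ _, ?_⟩
  rw [hF i]
  exact ext_le_of hd (F i) F' r hr hi

/-! ### The name of the slalom -/

/-- The name of the union of the finite slaloms of the conditions in the generic filter. -/
def slalom (d : ℕ → ℕ) : Name (Cond d) fun m => Set (Block d m) where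
  dec p m S := ∃ h : m < p.len, p.s ⟨m, h⟩ = S
  mono := by
    rintro p q m S hqp ⟨h, rfl⟩
    exact ⟨h.trans_le hqp.1, hqp.2.1 m h _⟩
  func := by
    rintro p m S T ⟨h, rfl⟩ ⟨_, rfl⟩
    rfl
  dense := fun m p => ⟨ext p (k := m + 1) (fun _ _ => false), ext_le _ _, _,
    show m < p.len + (m + 1) by omega, rfl⟩

/-- A good forcing notion keeps unbounded families unbounded. -/
theorem Good.unbounded {P : Type} [Preorder P] (hP : Good P) (U : Set (ℕ → ℕ))
    (hU : ∀ g : ℕ → ℕ, ∃ f ∈ U, ¬ ∀ᶠ n in atTop, f n ≤ g n) (τ : NameReal P) :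
    ∃ f ∈ U, NotDominated τ f := by
  obtain ⟨h, hh⟩ := hP τ
  obtain ⟨f, hf, hfg⟩ := hU (fun n => (Finset.range (n + 1)).sup fun k => h k n)
  refine ⟨f, hf, hh f fun k hk => hfg ?_⟩
  filter_upwards [hk, eventually_ge_atTop k] with n hn hkn
  exact hn.trans (Finset.le_sup (f := fun k => h k n) (Finset.mem_range.2 (Nat.lt_succ_of_le hkn)))

/-- **Result.** For every partitioning real `d` there are a (nonempty) forcing notion `P` and a `P`-name `B` for a `d`-binary
slalom, such that it is forced that every `x ∈ 2^ω` of the ground model goes through `B`: below every condition there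
are a condition `q` and `m₀` such that `q` forces `x ↾ I_m ∈ B(m)` for all `m ≥ m₀`. Moreover `P` is the union of
countably many Fréchet-linked sets, has the countable chain condition, is good for unbounded families, and so forces
every unbounded family of functions to be unbounded. -/
theorem result (d : ℕ → ℕ) (hd : Partitioning d) :
    ∃ (P : Type) (_ : Preorder P) (_ : Nonempty P) (B : Name P fun m => Set (Block d m)),
      (∀ p m S, B.dec p m S → S.ncard ≤ m) ∧
      (∀ (x : ℕ → Bool) (p : P), ∃ q ≤ p, ∃ m₀, ∀ m ≥ m₀, ∀ r ≤ q, ∀ S,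
        B.dec r m S → blk d x m ∈ S) ∧
      (∃ Q : ℕ → Set P, (∀ p, ∃ k, p ∈ Q k) ∧ ∀ k, FrLinked (Q k)) ∧
      CCC P ∧ Good P ∧
      (∀ U : Set (ℕ → ℕ), (∀ g : ℕ → ℕ, ∃ f ∈ U, ¬ ∀ᶠ n in atTop, f n ≤ g n) →
        ∀ τ : NameReal P, ∃ f ∈ U, NotDominated τ f) := by
  have hN : Nonempty (Σ N : ℕ, (∀ m : Fin N, Set (Block d m)) × ℕ) := ⟨⟨0, (fun _ => ∅, 0)⟩⟩
  have hgood : Good (Cond d) := good_of_frLinked idx (frLinked hd.1)
  obtain ⟨e, he⟩ := exists_surjective_nat (Σ N : ℕ, (∀ m : Fin N, Set (Block d m)) × ℕ)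
  have hP : Nonempty (Cond d) :=
    ⟨⟨0, fun m => m.elim0, 0, Fin.elim0, fun m => m.elim0, le_rfl⟩⟩
  refine ⟨Cond d, inferInstance, hP, slalom d, ?_, fun x p => ?_,
    ⟨fun k => {p | idx p = e k}, fun p => (he (idx p)).imp fun k hk => hk.symm,
      fun k => frLinked hd.1 (e k)⟩, ccc_of_frLinked idx (frLinked hd.1), hgood, fun U hU τ => hgood.unbounded U hU τ⟩
  · rintro p m S ⟨h, rfl⟩
    exact p.small ⟨m, h⟩
  · refine ⟨ext p (k := 1) (fun _ => x), ext_le _ _, p.len + 1, ?_⟩
    rintro m hm r hr S ⟨h, rfl⟩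
    have h1 := hr.2.2.2 (Fin.natAdd p.c 0) m h hm
    have h2 : (ext p (k := 1) (fun _ => x)).F (Fin.natAdd p.c 0) = x :=
      Fin.append_right p.F (fun _ : Fin 1 => x) 0
    rw [h2] at h1
    exact h1

end Pool.Agent.Results.MP_b6db87_lc.SlalomStep
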